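import Mathlib

/-!
# Profinite groups with a countable basis as inverse limits of sequences
-/

set_option autoImplicit false

namespace Pool.Agent.U301.PA

open Topology

section ker

variable {A W W' : Type*} [Group A] [TopologicalSpace A] [IsTopologicalGroup A] [Group W] [Group W']

theorem open_of_ker (a : A →* W) (h : IsOpen {s | a s = 1}) (T : Set W) : IsOpen (a ⁻¹' T) := by
  rw [isOpen_iff_forall_mem_open]
  intro s hs
  refine ⟨(fun x => s⁻¹ * x) ⁻¹' {s | a s = 1}, ?_, h.preimage (continuous_const_mul _), ?_⟩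
  · intro x hx
    have h1 : a (s⁻¹ * x) = 1 := hx
    rw [map_mul, map_inv, inv_mul_eq_one] at h1
    change a x ∈ T
    rw [← h1]
    exact hs
  · change a (s⁻¹ * s) = 1
    rw [inv_mul_cancel, map_one]

theorem closed_of_ker (a : A →* W) (h : IsOpen {s | a s = 1}) (T : Set W) :
    IsClosed (a ⁻¹' T) := by
  rw [← isOpen_compl_iff, ← Set.preimage_compl]
  exact open_of_ker a h _

theorem closed_pair (a : A →* W) (b : A →* W') (ha : IsOpen {s | a s = 1})
    (hb : IsOpen {s | b s = 1}) (R : W → W' → Prop) : IsClosed {s | R (a s) (b s)} := by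
  have h : IsOpen {s | a.prod b s = 1} := by
    have : {s | a.prod b s = 1} = {s | a s = 1} ∩ {s | b s = 1} := by
      ext s
      simp only [MonoidHom.prod_apply, Prod.mk_eq_one]
      rfl
    rw [this]
    exact ha.inter hb
  exact closed_of_ker (a.prod b) h {t | R t.1 t.2}

end ker

/-- The intersections of the first members of a sequence of subgroups. -/
def meet {X : Type*} [Group X] (V : ℕ → Subgroup X) : ℕ → Subgroup X
  | 0 => V 0
  | i + 1 => meet V i ⊓ V (i + 1)

variable (Γ : Type*) [Group Γ] [TopologicalSpace Γ] [IsTopologicalGroup Γ] [CompactSpace Γ]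
  [TotallyDisconnectedSpace Γ]

/-- A decreasing sequence of open normal subgroups which is a basis at `1`. -/
theorem exists_chain [FirstCountableTopology Γ] :
    ∃ U : ℕ → Subgroup Γ, (∀ j, (U j).Normal) ∧ (∀ j, IsOpen (U j : Set Γ)) ∧
      (∀ j, U (j + 1) ≤ U j) ∧ ∀ V ∈ 𝓝 (1 : Γ), ∃ j, (U j : Set Γ) ⊆ V := by
  obtain ⟨B, hB⟩ := (𝓝 (1 : Γ)).exists_antitone_basis
  have h1 : ∀ j, ∃ V : OpenNormalSubgroup Γ, (V : Set Γ) ⊆ B j := by
    intro j
    obtain ⟨V, hV⟩ := ProfiniteGrp.exist_openNormalSubgroup_sub_open_nhds_of_one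
      (isOpen_interior (s := B j)) (mem_interior_iff_mem_nhds.2 (hB.mem_of_mem trivial))
    exact ⟨V, hV.trans interior_subset⟩
  choose V hV using h1
  let U : ℕ → Subgroup Γ := meet fun j => (V j).toSubgroup
  have hU0 : U 0 = (V 0).toSubgroup := rfl
  have hU1 : ∀ i, U (i + 1) = U i ⊓ (V (i + 1)).toSubgroup := fun i => rfl
  have hVn : ∀ j, (V j).toSubgroup.Normal := fun j => (V j).isNormal'
  have hVo : ∀ j, IsOpen ((V j).toSubgroup : Set Γ) := fun j => (V j).isOpen'
  have hUV : ∀ j, U j ≤ (V j).toSubgroup := by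
    intro j
    cases j with
    | zero => rw [hU0]
    | succ i => rw [hU1]; exact inf_le_right
  refine ⟨U, fun j => ?_, fun j => ?_, fun j => by rw [hU1]; exact inf_le_left, fun W hW => ?_⟩
  · induction j with
    | zero => exact hVn 0
    | succ i ih =>
      rw [hU1]
      have h3 := hVn (i + 1)
      exact Subgroup.normal_inf_normal (U i) (V (i + 1)).toSubgroup
  · induction j with
    | zero => exact hVo 0
    | succ i ih =>
      rw [hU1, Subgroup.coe_inf]
      exact ih.inter (hVo _)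
  · obtain ⟨j, -, hj⟩ := hB.1.mem_iff.1 hW
    exact ⟨j, fun x hx => hj (hV j (hUV j hx))⟩

variable {Γ}

omit [IsTopologicalGroup Γ] [CompactSpace Γ] in
theorem eq_of_chain {U : ℕ → Subgroup Γ} (hU : ∀ V ∈ 𝓝 (1 : Γ), ∃ j, (U j : Set Γ) ⊆ V)
    {a b : Γ} (h : ∀ j, (a : Γ ⧸ U j) = (b : Γ ⧸ U j)) : a = b := by
  by_contra hne
  have h1 : a⁻¹ * b ≠ 1 := fun h2 => hne (inv_mul_eq_one.1 h2)
  obtain ⟨j, hj⟩ := hU {a⁻¹ * b}ᶜ (isOpen_compl_singleton.mem_nhds (Ne.symm h1))
  exact hj (QuotientGroup.eq.1 (h j)) rfl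

omit [TotallyDisconnectedSpace Γ] in
/-- Every compatible sequence of cosets has an element in common. -/
theorem exists_lift {U : ℕ → Subgroup Γ} [∀ j, (U j).Normal] (hUo : ∀ j, IsOpen (U j : Set Γ))
    (hle : ∀ j, U (j + 1) ≤ U j) (g : ∀ j, Γ ⧸ U j)
    (hg : ∀ j, QuotientGroup.map (U (j + 1)) (U j) (MonoidHom.id Γ) (hle j) (g (j + 1)) = g j) :
    ∃ γ : Γ, ∀ j, (γ : Γ ⧸ U j) = g j := by
  have h := IsCompact.nonempty_iInter_of_sequence_nonempty_isCompact_isClosed
    (fun j => {γ : Γ | (γ : Γ ⧸ U j) = g j}) ?_ ?_ ?_ ?_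
  · obtain ⟨γ, hγ⟩ := h
    rw [Set.mem_iInter] at hγ
    exact ⟨γ, hγ⟩
  · intro j γ hγ
    have h1 : (γ : Γ ⧸ U (j + 1)) = g (j + 1) := hγ
    change (γ : Γ ⧸ U j) = g j
    rw [← hg j, ← h1]
    rfl
  · intro j
    exact QuotientGroup.mk_surjective (g j)
  · apply IsClosed.isCompact
    have := closed_of_ker (QuotientGroup.mk' (U 0)) (W := Γ ⧸ U 0) (by
      convert hUo 0 using 1
      ext s
      exact QuotientGroup.eq_one_iff s) {g 0}
    exact this
  · intro j
    exact closed_of_ker (QuotientGroup.mk' (U j)) (W := Γ ⧸ U j) (by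
      convert hUo j using 1
      ext s
      exact QuotientGroup.eq_one_iff s) {g j}

end Pool.Agent.U301.PA
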