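import Pool.Agent.H391R2.WrGrp

/-!
# A subgroup of a product of wreath products whose normalizer quotient is an inverse limit

`G 0 ← G 1 ← G 2 ← …` is a sequence of groups.  `Q j` is the semidirect product of the functions
`G j → S_3 × S_3` and `G j`.  In the product `P` of the groups `Q j ≀ S_(m j + 3)` the subgroup `HH` has
the normalizer `DD` and `DD / HH` is the inverse limit of the groups `G j`.
-/

set_option autoImplicit false

namespace Pool.Agent.U301.PA

open Pool.Agent.H391R2 Function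

/-- `S_3` -/
abbrev T3 : Type := Equiv.Perm (Fin 3)

theorem T3_center (z : T3) (h : ∀ c : T3, z * c = c * z) : z = 1 := by
  revert z
  decide

/-- The semidirect product of the functions `G → S_3 × S_3` and `G`. -/
abbrev QQ (G : Type) [Group G] : Type := (G → T3 × T3) ⋊[mulAutArrow] G

section

variable {G : Type} [Group G]

theorem qq_mul_left (a b : QQ G) (x : G) :
    (a * b).left x = a.left x * b.left (a.right⁻¹ * x) := rfl

theorem qq_mul_right (a b : QQ G) : (a * b).right = a.right * b.right := rfl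

theorem qq_inv_left (a : QQ G) (x : G) : a⁻¹.left x = (a.left (a.right * x))⁻¹ := by
  rw [SemidirectProduct.inv_left]
  change (a.left⁻¹) ((a.right⁻¹)⁻¹ • x) = _
  rw [inv_inv]
  rfl

instance [Finite G] : Finite (QQ G) :=
  Finite.of_equiv ((G → T3 × T3) × G) (show _ ≃ QQ G from SemidirectProduct.equivProd.symm)

end

variable {G : ℕ → Type} [∀ j, Group (G j)] (π : ∀ j, G (j + 1) →* G j) {m : ℕ → ℕ}

/-- The product of the wreath products. -/
abbrev PP (G : ℕ → Type) [∀ j, Group (G j)] (m : ℕ → ℕ) : Type :=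
  ∀ j, Wr (QQ (G j)) (m j + 3)

/-- The component at the coordinate `0`. -/
def at0 (w : PP G m) (j : ℕ) : QQ (G j) := (w j).left 0

theorem at0_mul {w w' : PP G m} (h : ∀ j, (w j).right 0 = 0) (j : ℕ) :
    at0 (w * w') j = at0 w j * at0 w' j := by
  change (w j * w' j).left 0 = _
  rw [wr_mul_left]
  have : (w j).right⁻¹ 0 = 0 := by
    rw [Equiv.Perm.inv_eq_iff_eq, h j]
  rw [this]
  rfl

theorem at0_one (j : ℕ) : at0 (1 : PP G m) j = 1 := rfl

theorem at0_inv {w : PP G m} (h : ∀ j, (w j).right 0 = 0) (j : ℕ) :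
    at0 w⁻¹ j = (at0 w j)⁻¹ := by
  have h1 := at0_mul (w := w) (w' := w⁻¹) h j
  have h2 : w * w⁻¹ = 1 := mul_inv_cancel w
  rw [h2, at0_one] at h1
  exact eq_inv_of_mul_eq_one_right h1.symm

theorem fix_inv {w : PP G m} (h : ∀ j, (w j).right 0 = 0) (j : ℕ) : (w⁻¹ j).right 0 = 0 := by
  change (w j).right⁻¹ 0 = 0
  rw [Equiv.Perm.inv_eq_iff_eq, h j]

/-- Compatible elements of `∏ Q j`. -/
def Comp (q : ∀ j, QQ (G j)) : Prop :=
  (∀ j, π j (q (j + 1)).right = (q j).right) ∧
    ∀ j x, ((q (j + 1)).left x).1 = ((q j).left (π j x)).2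

theorem comp_one : Comp π (fun _ => 1) := ⟨fun _ => map_one _, fun _ _ => rfl⟩

theorem comp_mul {q q' : ∀ j, QQ (G j)} (h : Comp π q) (h' : Comp π q') :
    Comp π (fun j => q j * q' j) := by
  refine ⟨fun j => ?_, fun j x => ?_⟩
  · rw [qq_mul_right, map_mul, h.1, h'.1, qq_mul_right]
  · rw [qq_mul_left, qq_mul_left, Prod.fst_mul, Prod.snd_mul, h.2, h'.2, map_mul, map_inv, h.1]

theorem comp_inv {q : ∀ j, QQ (G j)} (h : Comp π q) : Comp π (fun j => (q j)⁻¹) := by
  refine ⟨fun j => ?_, fun j x => ?_⟩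
  · rw [SemidirectProduct.inv_right, map_inv, h.1, SemidirectProduct.inv_right]
  · rw [qq_inv_left, qq_inv_left, Prod.fst_inv, Prod.snd_inv, h.2, map_mul, h.1]

/-- The normalizer. -/
def DD (m : ℕ → ℕ) : Subgroup (PP G m) where
  carrier := {w | (∀ j, (w j).right 0 = 0) ∧ Comp π (at0 w)}
  one_mem' := ⟨fun _ => rfl, comp_one π⟩
  mul_mem' := by
    intro w w' h h'
    refine ⟨fun j => ?_, ?_⟩
    · change (w j).right ((w' j).right 0) = 0
      rw [h'.1, h.1]
    · have : at0 (w * w') = fun j => at0 w j * at0 w' j := funext fun j => at0_mul h.1 j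
      rw [this]
      exact comp_mul π h.2 h'.2
  inv_mem' := by
    intro w h
    refine ⟨fun j => fix_inv h.1 j, ?_⟩
    have : at0 w⁻¹ = fun j => (at0 w j)⁻¹ := funext fun j => at0_inv h.1 j
    rw [this]
    exact comp_inv π h.2

theorem mem_DD {w : PP G m} : w ∈ DD π m ↔ (∀ j, (w j).right 0 = 0) ∧ Comp π (at0 w) := Iff.rfl

/-- The homomorphism to `∏ G j`. -/
def chi (m : ℕ → ℕ) : DD π m →* ∀ j, G j where
  toFun w j := (at0 (w : PP G m) j).right
  map_one' := rfl
  map_mul' w w' := by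
    funext j
    have : at0 ((w * w' : DD π m) : PP G m) j = at0 (w : PP G m) j * at0 (w' : PP G m) j :=
      at0_mul w.2.1 j
    rw [this]
    rfl

theorem chi_apply (w : DD π m) (j : ℕ) : chi π m w j = (at0 (w : PP G m) j).right := rfl

/-- The subgroup. -/
def HH (m : ℕ → ℕ) : Subgroup (PP G m) := (chi π m).ker.map (DD π m).subtype

theorem mem_HH {w : PP G m} :
    w ∈ HH π m ↔ w ∈ DD π m ∧ ∀ j, (at0 w j).right = 1 := by
  constructor
  · rintro ⟨w, hw, rfl⟩
    refine ⟨w.2, fun j => ?_⟩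
    have : chi π m w = 1 := hw
    exact congrFun this j
  · rintro ⟨h, h'⟩
    exact ⟨⟨w, h⟩, funext h', rfl⟩

/-- The basic elements of `HH`. -/
def bas (v : ∀ j, G j → T3) : ∀ j, G j → T3 × T3
  | 0 => fun x => (1, v 0 x)
  | j + 1 => fun x => (v j (π j x), v (j + 1) x)

theorem bas_snd (v : ∀ j, G j → T3) (j : ℕ) (x : G j) : (bas π v j x).2 = v j x := by
  cases j <;> rfl

theorem bas_fst (v : ∀ j, G j → T3) (j : ℕ) (x : G (j + 1)) :
    (bas π v (j + 1) x).1 = v j (π j x) := rfl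

/-- The element of the product with the component `q` at the coordinate `0`. -/
def put (m : ℕ → ℕ) (q : ∀ j, QQ (G j)) : PP G m := fun j => ⟨Pi.mulSingle 0 (q j), 1⟩

theorem at0_put (q : ∀ j, QQ (G j)) : at0 (put m q) = q := by
  funext j
  exact Pi.mulSingle_eq_same (M := fun _ : Fin (m j + 3) => QQ (G j)) 0 (q j)

theorem put_mem {q : ∀ j, QQ (G j)} (h : Comp π q) : put m q ∈ DD π m :=
  ⟨fun _ => rfl, by rw [at0_put]; exact h⟩

theorem bas_mem (v : ∀ j, G j → T3) : put m (fun j => ⟨bas π v j, 1⟩) ∈ HH π m := by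
  rw [mem_HH]
  refine ⟨put_mem π ⟨fun j => map_one _, fun j x => ?_⟩, fun j => ?_⟩
  · change (bas π v (j + 1) x).1 = (bas π v j (π j x)).2
    rw [bas_fst, bas_snd]
  · rw [at0_put]

theorem conj_bas (q : ∀ j, QQ (G j)) (b : ∀ j, G j → T3 × T3) (j : ℕ) (x : G j) :
    (q j * ⟨b j, 1⟩ * (q j)⁻¹).left x =
      (q j).left x * b j ((q j).right⁻¹ * x) * ((q j).left x)⁻¹ := by
  rw [qq_mul_left, qq_mul_left, qq_inv_left, qq_mul_right, mul_one, mul_inv_cancel_left]

theorem normalizer_fix {w : PP G m} (h : ∀ g, g ∈ HH π m ↔ w * g * w⁻¹ ∈ HH π m) (j : ℕ) :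
    (w j).right 0 = 0 := by
  classical
  by_contra hne
  set c : Fin (m j + 3) := (w j).right⁻¹ 0 with hc
  have hc0 : c ≠ 0 := by
    intro h0
    apply hne
    rw [hc, Equiv.Perm.inv_eq_iff_eq] at h0
    exact h0.symm
  have e0 : ((0 : Fin (m j + 3)) : ℕ) = 0 := rfl
  have e1 : ((1 : Fin (m j + 3)) : ℕ) = 1 :=
    (Nat.mod_eq_of_lt (by omega : 1 < m j + 3) : 1 % (m j + 3) = 1)
  have e2 : ((2 : Fin (m j + 3)) : ℕ) = 2 :=
    (Nat.mod_eq_of_lt (by omega : 2 < m j + 3) : 2 % (m j + 3) = 2)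
  obtain ⟨d, hd0, hdc⟩ : ∃ d : Fin (m j + 3), d ≠ 0 ∧ d ≠ c := by
    by_cases h1 : c = 1
    · refine ⟨2, ?_, ?_⟩
      · intro h2
        rw [Fin.ext_iff, e2, e0] at h2
        omega
      · rw [h1]
        intro h2
        rw [Fin.ext_iff, e2, e1] at h2
        omega
    · refine ⟨1, ?_, Ne.symm h1⟩
      intro h2
      rw [Fin.ext_iff, e1, e0] at h2
      omega
  let g : PP G m := Pi.mulSingle j ⟨1, Equiv.swap c d⟩
  have hg : g ∈ HH π m := by
    rw [mem_HH]
    have h1 : ∀ i, (g i).right 0 = 0 := by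
      intro i
      by_cases hij : i = j
      · subst hij
        have : g i = ⟨1, Equiv.swap c d⟩ := Pi.mulSingle_eq_same _ _
        rw [this]
        exact Equiv.swap_apply_of_ne_of_ne (Ne.symm hc0) (Ne.symm hd0)
      · have : g i = 1 := Pi.mulSingle_eq_of_ne hij _
        rw [this]
        rfl
    have h2 : at0 g = fun _ => 1 := by
      funext i
      by_cases hij : i = j
      · subst hij
        have : g i = ⟨1, Equiv.swap c d⟩ := Pi.mulSingle_eq_same _ _
        change (g i).left 0 = 1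
        rw [this]
        rfl
      · have : g i = 1 := Pi.mulSingle_eq_of_ne hij _
        change (g i).left 0 = 1
        rw [this]
        rfl
    exact ⟨⟨h1, by rw [h2]; exact comp_one π⟩, fun i => by rw [h2]; rfl⟩
  have h3 := ((h g).1 hg)
  rw [mem_HH] at h3
  have h4 := h3.1.1 j
  have h5 : (w j).right (Equiv.swap c d c) = 0 := by
    have : g j = ⟨1, Equiv.swap c d⟩ := Pi.mulSingle_eq_same _ _
    have h6 : ((w * g * w⁻¹) j).right 0 = (w j).right ((g j).right ((w j).right⁻¹ 0)) := rfl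
    rw [h6, this] at h4
    exact h4
  rw [Equiv.swap_apply_left] at h5
  apply hdc
  rw [hc]
  rw [← h5]
  simp

theorem normalizer_comp {w : PP G m} (h : ∀ g, g ∈ HH π m ↔ w * g * w⁻¹ ∈ HH π m) :
    Comp π (at0 w) := by
  classical
  have hfix := normalizer_fix π h
  have key : ∀ (v : ∀ j, G j → T3) (j : ℕ) (x : G (j + 1)),
      ((at0 w (j + 1)).left x).1 * v j (π j ((at0 w (j + 1)).right⁻¹ * x)) *
          (((at0 w (j + 1)).left x).1)⁻¹ =
        ((at0 w j).left (π j x)).2 * v j ((at0 w j).right⁻¹ * π j x) *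
          (((at0 w j).left (π j x)).2)⁻¹ := by
    intro v j x
    have h1 := (h _).1 (bas_mem π (m := m) v)
    rw [mem_HH] at h1
    have h2 := h1.1.2.2 j x
    have h3 : ∀ i, at0 (w * put m (fun j => (⟨bas π v j, 1⟩ : QQ (G j))) * w⁻¹) i =
        at0 w i * ⟨bas π v i, 1⟩ * (at0 w i)⁻¹ := by
      intro i
      rw [at0_mul, at0_mul hfix, at0_put, at0_inv hfix]
      intro k
      change (w k).right 0 = 0
      exact hfix k
    rw [h3, h3, conj_bas (at0 w) (bas π v), conj_bas (at0 w) (bas π v)] at h2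
    simp only [Prod.fst_mul, Prod.snd_mul, Prod.fst_inv, Prod.snd_inv, bas_fst, bas_snd] at h2
    exact h2
  have h1 : ∀ j, π j (at0 w (j + 1)).right = (at0 w j).right := by
    intro j
    by_contra hne
    let z : G j := π j ((at0 w (j + 1)).right⁻¹ * 1)
    let c : T3 := Equiv.swap 0 1
    have hc : c ≠ 1 := by decide
    let v : ∀ i, G i → T3 := Function.update (fun _ _ => 1) j (Pi.mulSingle z c)
    have h2 := key v j 1
    have hv : v j = Pi.mulSingle z c := Function.update_self _ _ _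
    rw [hv] at h2
    have h3 : (Pi.mulSingle z c : G j → T3) (π j ((at0 w (j + 1)).right⁻¹ * 1)) = c :=
      Pi.mulSingle_eq_same _ _
    have h4 : (Pi.mulSingle z c : G j → T3) ((at0 w j).right⁻¹ * π j 1) = 1 := by
      apply Pi.mulSingle_eq_of_ne
      intro h5
      apply hne
      simp only [z, mul_one, map_one, map_inv, inv_inj] at h5
      exact h5.symm
    rw [h3, h4, mul_one, mul_inv_cancel] at h2
    apply hc
    have h6 := congrArg (fun t => (((at0 w (j + 1)).left 1).1)⁻¹ * t *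
      ((at0 w (j + 1)).left 1).1) h2
    simpa [mul_assoc] using h6
  refine ⟨h1, fun j x => ?_⟩
  have h2 : ∀ c : T3, (((at0 w j).left (π j x)).2⁻¹ * ((at0 w (j + 1)).left x).1) * c =
      c * (((at0 w j).left (π j x)).2⁻¹ * ((at0 w (j + 1)).left x).1) := by
    intro c
    have h3 := key (fun _ _ => c) j x
    have h4 := congrArg (fun t => (((at0 w j).left (π j x)).2)⁻¹ * t *
      ((at0 w (j + 1)).left x).1) h3
    simpa [mul_assoc] using h4
  have h5 := T3_center _ h2
  have h6 := inv_mul_eq_one.1 h5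
  exact h6.symm

theorem conj_conj_inv {X : Type*} [Group X] (a b : X) : a⁻¹ * (a * b * a⁻¹) * a⁻¹⁻¹ = b := by
  group

/-- `DD` is the normalizer of `HH`. -/
theorem mem_DD_iff (w : PP G m) : w ∈ DD π m ↔ ∀ g, g ∈ HH π m ↔ w * g * w⁻¹ ∈ HH π m := by
  constructor
  · have key : ∀ w ∈ DD π m, ∀ g ∈ HH π m, w * g * w⁻¹ ∈ HH π m := by
      intro w hw g hg
      rw [mem_HH] at hg ⊢
      have hwg : w * g ∈ DD π m := mul_mem hw hg.1
      refine ⟨mul_mem hwg (inv_mem hw), fun j => ?_⟩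
      rw [at0_mul hwg.1, at0_mul hw.1, at0_inv hw.1, qq_mul_right, qq_mul_right,
        SemidirectProduct.inv_right, hg.2 j, mul_one, mul_inv_cancel]
    intro hw g
    refine ⟨fun hg => key w hw g hg, fun hg => ?_⟩
    have := key w⁻¹ (inv_mem hw) _ hg
    have h2 : w⁻¹ * (w * g * w⁻¹) * w⁻¹⁻¹ = g := conj_conj_inv w g
    rwa [h2] at this
  · intro h
    exact ⟨normalizer_fix π h, normalizer_comp π h⟩

end Pool.Agent.U301.PA
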