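import Pool.Agent.U301.PA.Gal
import Pool.Agent.U301.PA.Grp
import Pool.Agent.U301.PA.Chain

/-!
# Realization of a profinite group as the automorphism group of a fixed field

`L/K` is a Galois extension whose Galois group is the product of the groups `Q j ≀ S_(m j + 3)`.
-/

set_option autoImplicit false

namespace Pool.Agent.U301.PA

open Pool.Agent.H391R2 Topology IntermediateField

section mem

variable {G : ℕ → Type} [∀ j, Group (G j)] (π : ∀ j, G (j + 1) →* G j) {m : ℕ → ℕ}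

theorem mem_DD_pair {w : PP G m} : w ∈ DD π m ↔ ∀ j, (w j).right 0 = 0 ∧
    π j ((w (j + 1)).left 0).right = ((w j).left 0).right ∧
    ∀ x, (((w (j + 1)).left 0).left x).1 = (((w j).left 0).left (π j x)).2 := by
  rw [mem_DD]
  exact ⟨fun h j => ⟨h.1 j, h.2.1 j, h.2.2 j⟩,
    fun h => ⟨fun j => (h j).1, fun j => (h j).2.1, fun j => (h j).2.2⟩⟩

end mem

variable {K L : Type*} [Field K] [Field L] [Algebra K L] [IsGalois K L]
  {Γ : Type} [Group Γ] [TopologicalSpace Γ] [IsTopologicalGroup Γ] [CompactSpace Γ]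
  [TotallyDisconnectedSpace Γ] {U : ℕ → Subgroup Γ} [hUn : ∀ j, (U j).Normal]

theorem realize (hUo : ∀ j, IsOpen (U j : Set Γ)) (hle : ∀ j, U (j + 1) ≤ U j)
    (hU : ∀ V ∈ 𝓝 (1 : Γ), ∃ j, (U j : Set Γ) ⊆ V) {m : ℕ → ℕ}
    (e : Gal(L/K) ≃* PP (fun j => Γ ⧸ U j) m) (he : ∀ j, IsOpen {s : Gal(L/K) | e s j = 1}) :
    ∃ H : Subgroup Gal(L/K), Nonempty (Γ ≃ₜ* (fixedField H ≃ₐ[K] fixedField H)) := by
  have hT2 : T2Space Γ := inferInstance
  let π : ∀ j, (Γ ⧸ U (j + 1)) →* (Γ ⧸ U j) := fun j =>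
    QuotientGroup.map (U (j + 1)) (U j) (MonoidHom.id Γ) (hle j)
  let ε : ∀ j, Gal(L/K) →* Wr (QQ (Γ ⧸ U j)) (m j + 3) := fun j =>
    (Pi.evalMonoidHom (fun j => Wr (QQ (Γ ⧸ U j)) (m j + 3)) j).comp e.toMonoidHom
  have hε : ∀ j, IsOpen {s | ε j s = 1} := he
  let H : Subgroup Gal(L/K) := (HH (G := fun j => Γ ⧸ U j) π m).comap e.toMonoidHom
  let N : Subgroup Gal(L/K) := (DD (G := fun j => Γ ⧸ U j) π m).comap e.toMonoidHom
  have hNc : IsClosed (N : Set Gal(L/K)) := by
    have : (N : Set Gal(L/K)) = ⋂ j, {s | (ε j s).right 0 = 0 ∧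
        π j ((ε (j + 1) s).left 0).right = ((ε j s).left 0).right ∧
        ∀ x, (((ε (j + 1) s).left 0).left x).1 = (((ε j s).left 0).left (π j x)).2} := by
      ext s
      rw [Set.mem_iInter]
      exact mem_DD_pair (G := fun j => Γ ⧸ U j) π
    rw [this]
    exact isClosed_iInter fun j => closed_pair (ε j) (ε (j + 1)) (hε j) (hε (j + 1))
      (fun a b => a.right 0 = 0 ∧ π j (b.left 0).right = (a.left 0).right ∧
        ∀ x, ((b.left 0).left x).1 = ((a.left 0).left (π j x)).2)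
  have hHc : IsClosed (H : Set Gal(L/K)) := by
    have : (H : Set Gal(L/K)) = (N : Set Gal(L/K)) ∩ ⋂ j, (ε j) ⁻¹' {a | (a.left 0).right = 1} := by
      ext s
      rw [Set.mem_inter_iff, Set.mem_iInter]
      exact mem_HH (G := fun j => Γ ⧸ U j) π
    rw [this]
    exact hNc.inter (isClosed_iInter fun j => closed_of_ker (ε j) (hε j) _)
  have hN : ∀ s, s ∈ N ↔ ∀ h, h ∈ H ↔ s * h * s⁻¹ ∈ H := by
    intro s
    have h1 : s ∈ N ↔ e s ∈ DD π m := Iff.rfl
    rw [h1, mem_DD_iff]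
    constructor
    · intro h2 h
      have h3 := h2 (e h)
      have h4 : e s * e h * (e s)⁻¹ = e (s * h * s⁻¹) := by
        rw [map_mul, map_mul, map_inv]
      rw [h4] at h3
      exact h3
    · intro h2 g
      obtain ⟨h, rfl⟩ := e.surjective g
      have h3 := h2 h
      have h4 : e s * e h * (e s)⁻¹ = e (s * h * s⁻¹) := by
        rw [map_mul, map_mul, map_inv]
      rw [h4]
      exact h3
  have hlift : ∀ s : N, ∃ γ : Γ, ∀ j, (γ : Γ ⧸ U j) = (at0 (e (s : Gal(L/K))) j).right := by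
    intro s
    exact exists_lift hUo hle _ fun j => s.2.2.1 j
  choose f hf using hlift
  have huniq : ∀ (s : N) (γ : Γ),
      (∀ j, (γ : Γ ⧸ U j) = (at0 (e (s : Gal(L/K))) j).right) → f s = γ :=
    fun s γ h => eq_of_chain hU fun j => (hf s j).trans (h j).symm
  let φ : N →* Γ :=
    { toFun := f
      map_one' := huniq 1 1 fun j => by
        have : e ((1 : N) : Gal(L/K)) = 1 := map_one e
        rw [this]
        rfl
      map_mul' := fun s t => huniq (s * t) (f s * f t) fun j => by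
        have h1 : e ((s * t : N) : Gal(L/K)) = e (s : Gal(L/K)) * e (t : Gal(L/K)) := map_mul e _ _
        have h2 : at0 (e (s : Gal(L/K)) * e (t : Gal(L/K))) j =
            at0 (e (s : Gal(L/K))) j * at0 (e (t : Gal(L/K))) j := at0_mul s.2.1 j
        rw [h1, h2, qq_mul_right, ← hf, ← hf]
        rfl }
  have hφ : ∀ s, φ s = f s := fun _ => rfl
  have hφc : Continuous φ := by
    refine continuous_of_continuousAt_one φ ?_
    rw [ContinuousAt, map_one]
    intro V hV
    obtain ⟨j, hj⟩ := hU V hV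
    rw [Filter.mem_map]
    have h1 : IsOpen {s : N | ε j (s : Gal(L/K)) = 1} := (hε j).preimage continuous_subtype_val
    have h2 : {s : N | ε j (s : Gal(L/K)) = 1} ∈ 𝓝 (1 : N) := h1.mem_nhds (map_one (ε j))
    filter_upwards [h2] with s hs
    apply hj
    have h3 : e (s : Gal(L/K)) j = 1 := hs
    have h4 : ((f s : Γ) : Γ ⧸ U j) = 1 := by
      rw [hf]
      change ((e (s : Gal(L/K)) j).left 0).right = 1
      rw [h3]
      rfl
    exact (QuotientGroup.eq_one_iff _).1 h4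
  have hφs : Function.Surjective φ := by
    intro γ
    have hc : Comp π (fun j => (⟨fun _ => 1, (γ : Γ ⧸ U j)⟩ : QQ (Γ ⧸ U j))) :=
      ⟨fun j => rfl, fun j x => rfl⟩
    have hmem : e.symm (put m (fun j => (⟨fun _ => 1, (γ : Γ ⧸ U j)⟩ : QQ (Γ ⧸ U j)))) ∈ N := by
      change e (e.symm _) ∈ DD π m
      rw [e.apply_symm_apply]
      exact put_mem (G := fun j => Γ ⧸ U j) π hc
    refine ⟨⟨_, hmem⟩, huniq _ γ fun j => ?_⟩
    change _ = (at0 (e (e.symm _)) j).right
    rw [e.apply_symm_apply, at0_put]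
  have hφk : ∀ s : N, φ s = 1 ↔ (s : Gal(L/K)) ∈ H := by
    intro s
    have h1 : (s : Gal(L/K)) ∈ H ↔ e (s : Gal(L/K)) ∈ HH π m := Subgroup.mem_comap
    rw [h1, mem_HH, hφ]
    constructor
    · intro h
      refine ⟨s.2, fun j => ?_⟩
      rw [← hf, h]
      rfl
    · rintro ⟨-, h⟩
      refine huniq s 1 fun j => ?_
      rw [h j]
      rfl
  exact ⟨H, aut_iso H N hHc hNc hN φ hφc hφs hφk⟩

end Pool.Agent.U301.PA
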