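import Pool.Agent.U301.PA.Gal

/-!
# Local degrees of subfields, and automorphism groups of algebraic extensions as profinite groups
-/

set_option autoImplicit false

namespace Pool.Agent.U301.PA

open Topology IntermediateField Polynomial

section loc

variable {L : Type} [Field L] [Algebra ℚ L] [Normal ℚ L] {p : ℕ} [Fact p.Prime]

/-- Two embeddings of a normal extension differ by an automorphism. -/
theorem same_image {Ω : Type} [Field Ω] [Algebra ℚ Ω] (σ s : L →+* Ω) (x : L) :
    ∃ y : L, s x = σ y := by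
  let _ : Algebra L Ω := σ.toAlgebra
  have : IsScalarTower ℚ L Ω := IsScalarTower.of_algebraMap_eq fun q => by
    rw [eq_ratCast, eq_ratCast, map_ratCast]
  let s' : L →ₐ[ℚ] Ω := s.toRatAlgHom
  exact ⟨s'.restrictNormal L x, (s'.restrictNormal_commutes L x).symm⟩

theorem degree_le (σ : L →+* AlgebraicClosure ℚ_[p])
    (D : (AlgebraicClosure ℚ_[p] ≃ₐ[ℚ_[p]] AlgebraicClosure ℚ_[p]) →* (L ≃ₐ[ℚ] L))
    (hD : ∀ τ x, σ (D τ x) = τ (σ x)) (hfin : (Set.range D).Finite)
    (s : L →+* AlgebraicClosure ℚ_[p]) (x : L) :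
    (minpoly ℚ_[p] (s x)).natDegree ≤ (Set.range D).ncard := by
  obtain ⟨y, hy⟩ := same_image σ s x
  rw [hy]
  have hint : IsIntegral ℚ_[p] (σ y) := Algebra.IsIntegral.isIntegral _
  rw [← card_rootSet_eq_natDegree (K := AlgebraicClosure ℚ_[p])
    (minpoly.irreducible hint).separable (IsAlgClosed.splits _), ← Set.toFinset_card,
    ← Set.ncard_eq_toFinset_card']
  have h1 : (minpoly ℚ_[p] (σ y)).rootSet (AlgebraicClosure ℚ_[p]) ⊆
      (fun g : L ≃ₐ[ℚ] L => σ (g y)) '' Set.range D := by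
    intro t ht
    rw [mem_rootSet] at ht
    obtain ⟨τ, hτ⟩ := minpoly.exists_algEquiv_of_root hint.isAlgebraic ht.2
    refine ⟨D τ⁻¹, ⟨τ⁻¹, rfl⟩, (hD τ⁻¹ y).trans ?_⟩
    rw [← hτ]
    exact τ.symm_apply_apply t
  exact (Set.ncard_le_ncard h1 (hfin.image _)).trans (Set.ncard_image_le hfin)

end loc

section prof

variable {K F F' : Type*} [Field K] [Field F] [Field F'] [Algebra K F] [Algebra K F']

theorem eval_continuous [Algebra.IsAlgebraic K F] (x : F) :
    @Continuous _ _ _ ⊥ (fun s : F ≃ₐ[K] F => s x) := by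
  let _ : TopologicalSpace F := ⊥
  have : DiscreteTopology F := ⟨rfl⟩
  rw [continuous_discrete_rng]
  intro b
  rw [isOpen_iff_forall_mem_open]
  intro s hs
  have : FiniteDimensional K (adjoin K {x}) :=
    adjoin.finiteDimensional (Algebra.IsIntegral.isIntegral x)
  refine ⟨(fun t => s⁻¹ * t) ⁻¹' ((adjoin K {x}).fixingSubgroup : Set (F ≃ₐ[K] F)), ?_,
    (fixingSubgroup_isOpen _).preimage (continuous_const_mul _), ?_⟩
  · intro t ht
    have h1 : (s⁻¹ * t) x = x :=
      (IntermediateField.mem_fixingSubgroup_iff _ _).1 ht x (mem_adjoin_simple_self K x)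
    have h2 : s ((s⁻¹ * t) x) = s x := by rw [h1]
    change t x = b
    have h3 : s ((s⁻¹ * t) x) = t x := s.apply_symm_apply _
    rw [← h3, h2]
    exact hs
  · change s⁻¹ * s ∈ (adjoin K {x}).fixingSubgroup
    rw [inv_mul_cancel]
    exact one_mem _

theorem autCongr_continuous (θ : F ≃ₐ[K] F') :
    Continuous (AlgEquiv.autCongr θ : (F ≃ₐ[K] F) ≃* (F' ≃ₐ[K] F')) := by
  refine continuous_of_continuousAt_one (AlgEquiv.autCongr θ : (F ≃ₐ[K] F) ≃* (F' ≃ₐ[K] F')) ?_
  rw [ContinuousAt, map_one]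
  intro V hV
  obtain ⟨E, hE, hEV⟩ := (krullTopology_mem_nhds_one_iff _ _ _).1 hV
  let E' : IntermediateField K F := E.map (θ.symm : F' →ₐ[K] F)
  have : FiniteDimensional K E' :=
    LinearEquiv.finiteDimensional (equivMap E (θ.symm : F' →ₐ[K] F)).toLinearEquiv
  have h1 : (E'.fixingSubgroup : Set (F ≃ₐ[K] F)) ∈ 𝓝 (1 : F ≃ₐ[K] F) :=
    E'.fixingSubgroup_isOpen.mem_nhds E'.fixingSubgroup.one_mem
  rw [Filter.mem_map]
  filter_upwards [h1] with s hs
  apply hEV
  change AlgEquiv.autCongr θ s ∈ E.fixingSubgroup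
  rw [IntermediateField.mem_fixingSubgroup_iff]
  intro x hx
  have h2 : s (θ.symm x) = θ.symm x := (IntermediateField.mem_fixingSubgroup_iff _ _).1 hs _ ⟨x, hx, rfl⟩
  change θ (s (θ.symm x)) = x
  rw [h2, θ.apply_symm_apply]

theorem compact_aut [CharZero K] [Algebra.IsAlgebraic K F] : CompactSpace (F ≃ₐ[K] F) := by
  let L := AlgebraicClosure F
  have : CharZero F := charZero_of_injective_algebraMap (algebraMap K F).injective
  have : Algebra.IsAlgebraic K L := Algebra.IsAlgebraic.trans K F L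
  have : IsGalois K L := ⟨⟩
  let E : IntermediateField K L := (IsScalarTower.toAlgHom K F L).fieldRange
  let H : Subgroup (L ≃ₐ[K] L) := E.fixingSubgroup
  have hE : fixedField H = E := InfiniteGalois.fixedField_fixingSubgroup E
  have hH : IsClosed (H : Set (L ≃ₐ[K] L)) := InfiniteGalois.fixingSubgroup_isClosed E
  let N : Subgroup (L ≃ₐ[K] L) := Subgroup.normalizer (H : Set (L ≃ₐ[K] L))
  have hN : ∀ s, s ∈ N ↔ ∀ h, h ∈ H ↔ s * h * s⁻¹ ∈ H := fun s => Subgroup.mem_normalizer_iff
  have hNc : IsClosed (N : Set (L ≃ₐ[K] L)) := by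
    have h1 : (N : Set (L ≃ₐ[K] L)) = ⋂ h : L ≃ₐ[K] L, {s | h ∈ H ↔ s * h * s⁻¹ ∈ H} := by
      ext s
      rw [Set.mem_iInter]
      exact hN s
    have h2 : (N : Set (L ≃ₐ[K] L)) = ⋂ h ∈ (H : Set (L ≃ₐ[K] L)),
        ({s | s * h * s⁻¹ ∈ H} ∩ {s | s⁻¹ * h * s ∈ H}) := by
      ext s
      rw [Set.mem_iInter₂]
      constructor
      · intro hs h hh
        refine ⟨((hN s).1 hs h).1 hh, ((hN s).1 hs (s⁻¹ * h * s)).2 ?_⟩
        have : s * (s⁻¹ * h * s) * s⁻¹ = h := by group
        rw [this]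
        exact hh
      · intro hs
        refine (hN s).2 fun h => ⟨fun hh => (hs h hh).1, fun hh => ?_⟩
        have h3 : s⁻¹ * (s * h * s⁻¹) * s ∈ H := (hs _ hh).2
        have : s⁻¹ * (s * h * s⁻¹) * s = h := by group
        rw [this] at h3
        exact h3
    rw [h2]
    refine isClosed_biInter fun h _ => IsClosed.inter ?_ ?_
    · exact hH.preimage ((continuous_id.mul continuous_const).mul continuous_inv)
    · exact hH.preimage ((continuous_inv.mul continuous_const).mul continuous_id)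
  have : CompactSpace N := isCompact_iff_compactSpace.1 hNc.isCompact
  let θ : fixedField H ≃ₐ[K] F := (IntermediateField.equivOfEq hE).trans
    (AlgEquiv.ofInjectiveField (IsScalarTower.toAlgHom K F L)).symm
  have h1 : Continuous (fun s : N => AlgEquiv.autCongr θ (res H N hN s)) :=
    (autCongr_continuous θ).comp (res_continuous H N hN)
  have h2 : Function.Surjective (fun s : N => AlgEquiv.autCongr θ (res H N hN s)) :=
    (AlgEquiv.autCongr θ).surjective.comp (res_surjective H N hN hH)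
  rw [← isCompact_univ_iff, ← h2.range_eq]
  exact isCompact_range h1

theorem secondCountable_aut [Algebra.IsAlgebraic K F] [Countable F] [CompactSpace (F ≃ₐ[K] F)] :
    SecondCountableTopology (F ≃ₐ[K] F) := by
  let _ : TopologicalSpace F := ⊥
  have : DiscreteTopology F := ⟨rfl⟩
  have hc : Continuous (fun (s : F ≃ₐ[K] F) (x : F) => s x) :=
    continuous_pi fun x => eval_continuous x
  have hi : Function.Injective (fun (s : F ≃ₐ[K] F) (x : F) => s x) :=
    fun s t h => AlgEquiv.ext fun x => congrFun h x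
  have he := (hc.isClosedEmbedding hi).isEmbedding
  exact he.secondCountableTopology

end prof

end Pool.Agent.U301.PA
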