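import Mathlib

/-!
# Automorphism groups of fixed fields

`L/K` Galois, `H` a closed subgroup of `Gal(L/K)`, `N` its normalizer.  Then `Aut(L^H/K)` is `N/H`, also
as a topological group.
-/

set_option autoImplicit false

namespace Pool.Agent.U301.PA

open IntermediateField Topology

section gal

variable {K L : Type*} [Field K] [Field L] [Algebra K L]

theorem maps (H : Subgroup Gal(L/K)) {s : Gal(L/K)} (hs : ∀ h ∈ H, s⁻¹ * h * s ∈ H) {x : L}
    (hx : x ∈ fixedField H) : s x ∈ fixedField H := by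
  rw [mem_fixedField_iff] at hx ⊢
  intro h hh
  have h1 := hx _ (hs h hh)
  have h2 : s ((s⁻¹ * h * s) x) = h (s x) := by
    change s (s⁻¹ (h (s x))) = h (s x)
    exact s.apply_symm_apply _
  rw [← h2, h1]

/-- The automorphism of the fixed field of `H` induced by an element which normalizes `H`. -/
def resEquiv (H : Subgroup Gal(L/K)) (s : Gal(L/K)) (h1 : ∀ h ∈ H, s⁻¹ * h * s ∈ H)
    (h2 : ∀ h ∈ H, s * h * s⁻¹ ∈ H) : fixedField H ≃ₐ[K] fixedField H where
  toFun x := ⟨s x, maps H h1 x.2⟩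
  invFun x := ⟨s⁻¹ x, maps H (s := s⁻¹) (by simpa using h2) x.2⟩
  left_inv x := Subtype.ext (s.symm_apply_apply x)
  right_inv x := Subtype.ext (s.apply_symm_apply x)
  map_mul' x y := Subtype.ext (map_mul s _ _)
  map_add' x y := Subtype.ext (map_add s _ _)
  commutes' r := Subtype.ext (s.commutes r)

theorem conj_left {G : Type*} [Group G] {H N : Subgroup G}
    (hN : ∀ s, s ∈ N ↔ ∀ h, h ∈ H ↔ s * h * s⁻¹ ∈ H) {s : G} (hs : s ∈ N) :
    (∀ h ∈ H, s⁻¹ * h * s ∈ H) ∧ ∀ h ∈ H, s * h * s⁻¹ ∈ H := by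
  refine ⟨fun h hh => ?_, fun h hh => ((hN s).1 hs h).1 hh⟩
  rw [(hN s).1 hs]
  have : s * (s⁻¹ * h * s) * s⁻¹ = h := by group
  rw [this]
  exact hh

/-- The restriction homomorphism. -/
def res (H N : Subgroup Gal(L/K)) (hN : ∀ s, s ∈ N ↔ ∀ h, h ∈ H ↔ s * h * s⁻¹ ∈ H) :
    N →* (fixedField H ≃ₐ[K] fixedField H) where
  toFun s := resEquiv H s (conj_left hN s.2).1 (conj_left hN s.2).2
  map_one' := by ext x; rfl
  map_mul' s t := by ext x; rfl

theorem res_apply (H N : Subgroup Gal(L/K)) (hN : ∀ s, s ∈ N ↔ ∀ h, h ∈ H ↔ s * h * s⁻¹ ∈ H)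
    (s : N) (x : fixedField H) : (res H N hN s x : L) = (s : Gal(L/K)) (x : L) := rfl

theorem res_continuous (H N : Subgroup Gal(L/K))
    (hN : ∀ s, s ∈ N ↔ ∀ h, h ∈ H ↔ s * h * s⁻¹ ∈ H) : Continuous (res H N hN) := by
  refine continuous_of_continuousAt_one (res H N hN) ?_
  rw [ContinuousAt, map_one]
  intro V hV
  obtain ⟨E, hE, hEV⟩ := (krullTopology_mem_nhds_one_iff _ _ _).1 hV
  let E' : IntermediateField K L := E.map (fixedField H).val
  have : FiniteDimensional K E' :=
    LinearEquiv.finiteDimensional (IntermediateField.equivMap E (fixedField H).val).toLinearEquiv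
  have h1 : (E'.fixingSubgroup : Set Gal(L/K)) ∈ 𝓝 (1 : Gal(L/K)) :=
    E'.fixingSubgroup_isOpen.mem_nhds E'.fixingSubgroup.one_mem
  have h2 : Filter.Tendsto (fun s : N => (s : Gal(L/K))) (𝓝 1) (𝓝 1) :=
    continuous_subtype_val.tendsto' _ _ rfl
  rw [Filter.mem_map]
  filter_upwards [h2 h1] with s hs
  apply hEV
  change res H N hN s ∈ E.fixingSubgroup
  rw [IntermediateField.mem_fixingSubgroup_iff]
  intro x hx
  apply Subtype.ext
  rw [res_apply]
  exact (IntermediateField.mem_fixingSubgroup_iff _ _).1 hs _ ⟨x, hx, rfl⟩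

variable [IsGalois K L]

theorem fix_fix (H : Subgroup Gal(L/K)) (hH : IsClosed (H : Set Gal(L/K))) :
    (fixedField H).fixingSubgroup = H :=
  InfiniteGalois.fixingSubgroup_fixedField ⟨H, hH⟩

theorem res_eq_one (H N : Subgroup Gal(L/K)) (hN : ∀ s, s ∈ N ↔ ∀ h, h ∈ H ↔ s * h * s⁻¹ ∈ H)
    (hH : IsClosed (H : Set Gal(L/K))) (s : N) : res H N hN s = 1 ↔ (s : Gal(L/K)) ∈ H := by
  constructor
  · intro h
    rw [← fix_fix H hH, IntermediateField.mem_fixingSubgroup_iff]
    intro x hx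
    have := congrArg (fun t : fixedField H ≃ₐ[K] fixedField H => (t ⟨x, hx⟩ : L)) h
    exact this
  · intro h
    ext x
    rw [res_apply]
    exact (mem_fixedField_iff H _).1 x.2 _ h

theorem res_surjective (H N : Subgroup Gal(L/K))
    (hN : ∀ s, s ∈ N ↔ ∀ h, h ∈ H ↔ s * h * s⁻¹ ∈ H)
    (hH : IsClosed (H : Set Gal(L/K))) : Function.Surjective (res H N hN) := by
  intro t
  let s : Gal(L/K) := AlgEquiv.liftNormal t L
  have hs : ∀ x : fixedField H, s (x : L) = (t x : L) := AlgEquiv.liftNormal_commutes t L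
  have hsi : ∀ x : fixedField H, s⁻¹ (x : L) = (t.symm x : L) := by
    intro x
    apply s.injective
    rw [hs]
    change s (s.symm (x : L)) = _
    rw [s.apply_symm_apply, t.apply_symm_apply]
  have hmem : ∀ g : Gal(L/K), g ∈ H ↔ ∀ x : fixedField H, g (x : L) = x := by
    intro g
    conv_lhs => rw [← fix_fix H hH]
    rw [IntermediateField.mem_fixingSubgroup_iff]
    exact ⟨fun h x => h x x.2, fun h x hx => h ⟨x, hx⟩⟩
  have hsN : s ∈ N := by
    rw [hN]
    intro h
    rw [hmem, hmem]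
    constructor
    · intro hh x
      change s (h (s⁻¹ (x : L))) = x
      rw [hsi, hh, hs, t.apply_symm_apply]
    · intro hh x
      have h1 := hh (t x)
      have h2 : s (h (s⁻¹ ((t x : fixedField H) : L))) = (t x : fixedField H) := h1
      rw [hsi, t.symm_apply_apply, ← hs] at h2
      exact s.injective h2
  refine ⟨⟨s, hsN⟩, ?_⟩
  ext x
  exact hs x

/-- **The automorphism group of a fixed field.** -/
theorem aut_iso (H N : Subgroup Gal(L/K)) (hH : IsClosed (H : Set Gal(L/K)))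
    (hNc : IsClosed (N : Set Gal(L/K))) (hN : ∀ s, s ∈ N ↔ ∀ h, h ∈ H ↔ s * h * s⁻¹ ∈ H)
    {Γ : Type*} [Group Γ] [TopologicalSpace Γ] [IsTopologicalGroup Γ] [T2Space Γ]
    (φ : N →* Γ) (hφc : Continuous φ) (hφs : Function.Surjective φ)
    (hφk : ∀ s : N, φ s = 1 ↔ (s : Gal(L/K)) ∈ H) :
    Nonempty (Γ ≃ₜ* (fixedField H ≃ₐ[K] fixedField H)) := by
  have : CompactSpace N := isCompact_iff_compactSpace.1 hNc.isCompact
  have hT : T2Space (fixedField H ≃ₐ[K] fixedField H) := krullTopology_t2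
  have hker : φ.ker ≤ (res H N hN).ker := by
    intro s hs
    rw [MonoidHom.mem_ker] at hs ⊢
    rw [res_eq_one H N hN hH]
    exact (hφk s).1 hs
  let ψ : Γ →* (fixedField H ≃ₐ[K] fixedField H) := φ.liftOfSurjective hφs ⟨res H N hN, hker⟩
  have hψ : ∀ s, ψ (φ s) = res H N hN s := fun s =>
    MonoidHom.liftOfRightInverse_comp_apply φ _ (Function.rightInverse_surjInv hφs)
      ⟨res H N hN, hker⟩ s
  have hq : IsQuotientMap φ := hφc.isClosedMap.isQuotientMap hφc hφs
  have hψc : Continuous ψ := by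
    rw [hq.continuous_iff]
    have : (ψ ∘ φ) = res H N hN := funext hψ
    rw [this]
    exact res_continuous H N hN
  have : CompactSpace Γ := by
    rw [← isCompact_univ_iff, ← hφs.range_eq]
    exact isCompact_range hφc
  have hinj : Function.Injective ψ := by
    rw [injective_iff_map_eq_one]
    intro g hg
    obtain ⟨s, rfl⟩ := hφs g
    rw [hψ, res_eq_one H N hN hH] at hg
    exact (hφk s).2 hg
  have hsurj : Function.Surjective ψ := by
    intro t
    obtain ⟨s, rfl⟩ := res_surjective H N hN hH t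
    exact ⟨φ s, hψ s⟩
  let e : Γ ≃* (fixedField H ≃ₐ[K] fixedField H) := MulEquiv.ofBijective ψ ⟨hinj, hsurj⟩
  have he : Continuous e.toEquiv := hψc
  exact ⟨{ e with
    continuous_toFun := hψc
    continuous_invFun := (he.homeoOfEquivCompactToT2).continuous_invFun }⟩

end gal

end Pool.Agent.U301.PA
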